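import Pool.Agent.ThF.Final
import Pool.Agent.Helper16.BBLineB
import Pool.Agent.Helper16.BBQuad
import Pool.Agent.Helper16.GC10

set_option autoImplicit false

namespace Pool.Agent.Helper7.Old.UniruledTotalSpace

open Pool.Agent.Helper16.BB

/-- Let `k` be a finite field, `K = k(t)`, `X` a closed subvariety of a projective space over `K`,
given by homogeneous equations `I`, with a generic point `ξ` over `L(s)`, where `L` is an extension
field of `k`, `K` is embedded into `L(s)` over `k` by `j`, and `t` is not in `L`. Then `A_0(X) ⊗ ℚ` is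
finite-dimensional. More precisely, there is a finite set `S` of points of `X` whose coordinates,
together with `t`, are rational functions of one element `s` over the algebraic closure of `k`, such
that every zero-cycle on `X` with rational coefficients is rationally equivalent to a
combination of points in `S`. -/
theorem result (k : Type) [Field k] [Finite k] (σ : Type) [Finite σ]
    (I : Set (MvPolynomial σ (RatFunc k))) (hI : ∀ P ∈ I, ∃ d, P.IsHomogeneous d)
    (L : Type) [Field L] [Algebra k L] (j : RatFunc k →ₐ[k] RatFunc L)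
    (hj : j RatFunc.X ∉ Set.range (algebraMap L (RatFunc L)))
    (ξ : σ → RatFunc L) (hξ : ξ ≠ 0)
    (hξI : ∀ P ∈ I, MvPolynomial.eval₂ (j : RatFunc k →+* RatFunc L) ξ P = 0)
    (hgen : ∀ (d : ℕ) (P : MvPolynomial σ (RatFunc k)), P.IsHomogeneous d →
      MvPolynomial.eval₂ (j : RatFunc k →+* RatFunc L) ξ P = 0 →
      ∀ x : σ → AlgebraicClosure (RatFunc k), (∀ Q ∈ I, MvPolynomial.aeval x Q = 0) →
        MvPolynomial.aeval x P = 0) :
    Module.Finite ℚ (A0 (wOne σ) I) ∧
    ∃ S : Finset (σ → AlgebraicClosure (RatFunc k)),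
      (∀ y ∈ S, IsPoint (wOne σ) I y ∧ ∃ s : AlgebraicClosure (RatFunc k),
        algebraMap (RatFunc k) (AlgebraicClosure (RatFunc k)) RatFunc.X ∈
          IntermediateField.adjoin (algebraicClosure k (AlgebraicClosure (RatFunc k))) {s} ∧
        ∀ i, y i ∈
          IntermediateField.adjoin (algebraicClosure k (AlgebraicClosure (RatFunc k))) {s}) ∧
      cycles (wOne σ) I ≤ ratEquiv (wOne σ) I ⊔ Finsupp.supported ℚ ℚ (S : Set _) := by
  let _ : Algebra (RatFunc k) (RatFunc L) := (j : RatFunc k →+* RatFunc L).toAlgebra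
  have : IsScalarTower k (RatFunc k) (RatFunc L) :=
    IsScalarTower.of_algebraMap_eq fun a => (j.commutes a).symm
  refine Pool.Agent.ThF.main hI hj ξ ((isPoint_wOne I ξ).2 ⟨hξ, hξI⟩) ?_
  rintro P ⟨d, hd⟩ hP x hx
  exact hgen d P hd hP x hx.2

end Pool.Agent.Helper7.Old.UniruledTotalSpace
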